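import Pool.Agent.X321.DC.EF
set_option autoImplicit false

/-!
Beilinson's regulators in weight `d = dim X + 1` on fibrations by elliptic curves
`y + 1/y + z + 1/z = λ ∏_e L_e`: the regulators of the symbols of all simplices of the arrangement on
tori at all vertices are, asymptotically, the incidence numbers times `(2 π) ^ (n + 2) log |λ|`.
-/

namespace Pool.Agent.Results.MP_51fc19_nt.EllipticFibrationsMatrix

open Pool.Agent.TH826.MK (KQ symb Unramified Torus)

open Pool.Agent.TH826.GA (Unimod splx vert vert_injective)

open Pool.Agent.TH826.EF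

open Pool.Agent.X321.DC (inc)

/-- Let `n + 1 ≤ m`, let `σ` be a complex embedding of the number field `K`, and let
`L_e = ∑_j c_{e,j} x_j - a_e`, `0 ≤ e ≤ m`, be affine forms in `n + 1` variables with integral
coefficients in `K`, such that all determinants `det (c_{T_i,j})` of `n + 1` different forms are
units (of the ring of algebraic integers) and no `n + 2` of the forms have a common zero over `K`.
For `n + 1` different forms `T` (a vertex of the arrangement) and `n + 2` different forms `S` (a
simplex) let `inc T S` be the determinant of the matrix `([T_j = S_{k+1}] - [T_j = S_0])`; it is `1`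
for `S = (0, T_0, ..., T_n)` and `0` for `S = (0, T'_0, ..., T'_n)` if `T` and `T'` are different
increasing sequences of positive numbers.

For every `ε > 0` there is a constant `C > 1` such that for all algebraic integers `λ` of `K` with
`|σ λ| ≥ C` the following holds for the hypersurface `y + 1/y + z + 1/z = Φ`, `Φ = λ ∏_e L_e`, of
dimension `n + 2`. For all simplices `S` the symbol `{z, y, u_1, ..., u_{n+1}}`,
`u_k = γ_k L_{S_k} / (γ_0 L_{S_0})`, on the open part `y z Φ ≠ 0` is unramified at all discrete
valuations of the function field, where `γ_k` is `(-1)^k` times the determinant of the linear parts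
of the forms `S` without `S_k`. There are tori `Γ_T` of dimension `n + 2` in the complex points
(over `σ`) of the open part, one for each vertex `T`, such that for all simplices `S` the regulator
of the symbol of `S` on `Γ_T`, divided by `(2 π) ^ (n + 2) log |σ λ|`, differs from the number
`inc T S` by at most `ε`. The determinant of the `binom(m, n + 1)` regulators of the symbols of the
simplices `(0, T_0, ..., T_n)` on the tori `Γ_T`, `1 ≤ T_0 < ... < T_n ≤ m`, divided by
`((2 π) ^ (n + 2) log |σ λ|) ^ binom(m, n + 1)`, differs from `1` by at most `ε`. -/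
theorem result (n m : ℕ) (K : Type*) [Field K] [NumberField K]
    (σ : K →+* ℂ) (c : Fin (m + 1) → Fin (n + 1) → K) (a : Fin (m + 1) → K) (hm : n + 1 ≤ m)
    (hA : Unimod c a)
    (hgen : ∀ S : Fin (n + 2) → Fin (m + 1), Function.Injective S → ∀ x : Fin (n + 1) → K,
      ∃ i, ∑ j, c (S i) j * x j ≠ a (S i)) (ε : ℝ) (hε : 0 < ε) :
    ∃ C : ℝ, 1 < C ∧ ∀ lam : K, IsIntegral ℤ lam → C ≤ ‖σ lam‖ →
      (∀ (L : Type*) [Field L] [Algebra (ERing lam c a) L] [IsFractionRing (ERing lam c a) L],
        ∃ f : EOpen lam c a →+* L,
          (∀ b : ERing lam c a, f (toE lam c a b) = algebraMap (ERing lam c a) L b) ∧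
          ∀ S : Fin (n + 2) → Fin (m + 1), Function.Injective S →
            KQ.map (n + 3) f (symb (eent lam c a S)) ∈ Unramified L (n + 3)) ∧
      ∃ Γ : {T : Fin (n + 1) → Fin (m + 1) // Function.Injective T} →
          Torus (EOpen lam c a) (n + 2),
        (∀ T θ (x : K), (Γ T).e θ (ecst lam c a x) = σ x) ∧
        (∀ T, ∀ S : Fin (n + 2) → Fin (m + 1), Function.Injective S →
          |(Γ T).reg (symb (eent lam c a S)) /
            ((2 * Real.pi) ^ (n + 2) * Real.log ‖σ lam‖) - inc T.1 S| ≤ ε) ∧
        |(Matrix.of fun t i : {s : Finset (Fin m) // s.card = n + 1} =>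
          (Γ ⟨vert t, vert_injective t⟩).reg (symb (eent lam c a (splx i)))).det /
          ((2 * Real.pi) ^ (n + 2) * Real.log ‖σ lam‖) ^ (m.choose (n + 1)) - 1| ≤ ε := by
  obtain ⟨c1, hc1, h⟩ := Pool.Agent.X321.DC.exists_tori_ef (a := a) σ hA.det_ne hgen hε
  have hrow : ∀ e, c e ≠ 0 := Pool.Agent.TH826.DC.row_ne_zero hA.det_ne (by omega)
  refine ⟨c1, hc1, fun lam hlam hl => ⟨?_, h lam hl⟩⟩
  have hl0 : lam ≠ 0 := by
    intro h0
    rw [h0, map_zero, norm_zero] at hl
    linarith
  intro L _ _ _
  have hinj : Function.Injective (algebraMap (ERing lam c a) L) := IsFractionRing.injective _ _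
  have hne : algebraMap (ERing lam c a) L (eDel lam c a) ≠ 0 := by
    rw [Ne, map_eq_zero_iff _ hinj]
    exact eDel_ne_zero hrow hl0
  refine ⟨liftE (algebraMap (ERing lam c a) L) hne, fun b => liftE_toE _ _ _, fun S hS => ?_⟩
  exact symb_mem_unramified _ hlam hA hS

end Pool.Agent.Results.MP_51fc19_nt.EllipticFibrationsMatrix
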