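import Pool.Agent.X321.TW.Main
import Pool.Agent.Y797.TW.Unr
set_option autoImplicit false

/-!
Beilinson's regulators in weight `d = dim X + 1` on the hypersurfaces
`λ g ∏_j ∏_i (x_j - φ_{j,i}(x_{j+1}, ..., x_n)) = 1`: the exact leading term, as `λ` tends to infinity,
of the matrix of the regulators of the `∏_j r_j` symbols.
-/

namespace Pool.Agent.Results.MP_51fc19_nt.TowersLimit

open Pool.Agent.TH826.MK (KQ symb Unramified Torus)

open Pool.Agent.Y797.TW

open MvPolynomial

section defs

variable {K : Type*} [Field K] {n : ℕ}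

/-- The expected size of the regulators on the torus with the number `q`:
`- (2 π) ^ n q ^ (n - 1) log |σ λ|`. -/
noncomputable def size (n : ℕ) (σ : K →+* ℂ) (lam : K) (q : ℕ) : ℝ :=
  -((2 * Real.pi) ^ n * ((q : ℝ)⁻¹ * (q : ℝ) ^ n) * Real.log ‖σ lam‖)

/-- The torus lies in the complex points over `σ`. -/
def Over (σ : K →+* ℂ) (A : Tower K n) (lam : K) (Γ : Torus (A.CRing lam) n) : Prop :=
  ∀ θ (x : K), Γ.e θ (A.mkC lam (C x)) = σ x

/-- The symbols have unramified images in `K_{n+1} ⊗ ℚ` of all fields `L` with a homomorphism from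
the coordinate ring to `L` (for example of the function field of the hypersurface). -/
def UnramifiedSymbols.{u, v} {K : Type u} [Field K] {n : ℕ} (A : Tower K n) (lam : K) : Prop :=
  ∀ (L : Type v) [Field L] (f : A.CRing lam →+* L) (k : ∀ j, Fin (A.r j)),
    KQ.map (n + 1) f (symb (A.ent lam k)) ∈ Unramified L (n + 1)

/-- There are tori in the complex points over `σ` on which the matrix of the regulators of the
symbols is the diagonal matrix of the sizes, up to `ε`, after the division of the rows by the sizes;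
and the determinant is the product of the sizes up to a factor between `1 - ε` and `1 + ε`. -/
def AlmostDiagonal (σ : K →+* ℂ) (A : Tower K n) (lam : K) (q : (∀ j, Fin (A.r j)) → ℕ)
    (ε : ℝ) : Prop :=
  ∃ Γ : (∀ j, Fin (A.r j)) → Torus (A.CRing lam) n, (∀ t, Over σ A lam (Γ t)) ∧
    (∀ t k, |(Γ t).reg (symb (A.ent lam k)) / size n σ lam (q t) -
      (if t = k then 1 else 0)| ≤ ε) ∧
    |(Matrix.of fun t k => (Γ t).reg (symb (A.ent lam k))).det /
      (∏ t, size n σ lam (q t)) - 1| ≤ ε

end defs

/-- Let `σ` be a complex embedding of the number field `K`. For `0 ≤ j ≤ n` let `r_j ≥ 0`, and let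
`φ_{j,0}, ..., φ_{j,r_j}` be different polynomials in the variables `x_{j+1}, ..., x_n` (constants for
`j = n`) whose coefficients are algebraic integers of `K`, and let `g ≠ 0` be a polynomial in
`x_0, ..., x_n` whose coefficients are algebraic integers of `K`. There are positive integers `q_t`,
`t = (t_0, ..., t_n)`, `0 ≤ t_j < r_j`, which are all `1` if `g` does not contain the variable `x_0`
(for example, if `g = 1`), such that for every `ε > 0` there is a constant `c` such that for all
algebraic integers `λ` of `K` with `|σ λ| ≥ c` the following holds for the hypersurface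
`λ g ∏_j ∏_i (x_j - φ_{j,i}) = 1` of dimension `n`:

for all `k` the symbol
`{(x_0 - φ_{0,k_0+1})/(x_0 - φ_{0,0}), ..., (x_n - φ_{n,k_n+1})/(x_n - φ_{n,0})}` in `K_{n+1} ⊗ ℚ` of
the coordinate ring has an unramified image in `K_{n+1} ⊗ ℚ` of every field `L` with a homomorphism
from the coordinate ring to `L`; and there are `∏_j r_j` tori `Γ_t` of dimension `n` in the complex
points (over `σ`) of the hypersurface such that the regulator of the symbol of `k` on `Γ_t`, divided
by `- (2 π) ^ n q_t ^ (n - 1) log |σ λ|`, differs by at most `ε` from `1` if `k = t`, and from `0` if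
`k ≠ t`, and the determinant of the regulators, divided by the product of these numbers, differs
from `1` by at most `ε`. -/
theorem result.{u, v} (n : ℕ) (K : Type u) [Field K] [NumberField K] (σ : K →+* ℂ)
    (A : Tower K n) (hG : A.Graphs) (hI : A.Integral) :
    ∃ q : (∀ j, Fin (A.r j)) → ℕ, (∀ t, 0 < q t) ∧
      ((0 : Fin (n + 1)) ∉ A.g.vars → ∀ t, q t = 1) ∧
      ∀ ε : ℝ, 0 < ε → ∃ c : ℝ, 1 < c ∧ ∀ lam : K, IsIntegral ℤ lam → c ≤ ‖σ lam‖ →
        UnramifiedSymbols.{u, v} A lam ∧ AlmostDiagonal σ A lam q ε := by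
  obtain ⟨q, h1, h2, h3⟩ := Pool.Agent.X321.TW.exists_tori_limit (A := A) σ hG
  refine ⟨q, h1, h2, fun ε hε => ?_⟩
  obtain ⟨c, hc, h⟩ := h3 ε hε
  exact ⟨c, hc, fun lam hlam hl => ⟨fun L _ f k => symb_mem_unramified f hG hI hlam k, h lam hl⟩⟩

end Pool.Agent.Results.MP_51fc19_nt.TowersLimit
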