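import Pool.Agent.X321.UP.Main
import Pool.Agent.TH333.UP.Unr
set_option autoImplicit false

/-!
Beilinson's regulators on pencils of hypersurfaces with unit parameters: the exact leading terms of
the regulators of the `1 + ∏_j r_j` symbols at all places where the parameter is large or small.
-/

namespace Pool.Agent.Results.MP_51fc19_nt.UnitPencilsLimit

open Pool.Agent.TH826.MK (KQ symb Unramified Torus)

open Pool.Agent.TH333.UP

section defs

variable {K : Type*} [Field K] {n : ℕ}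

/-- On some torus of dimension `n` in the complex points over `ρ` of the open part, the regulators of
the symbols, divided by `(2 π) ^ n log |ρ λ|`, differ by at most `ε` from `1` for the symbol with the
index `t`, and from `0` for all the other symbols. -/
def OnlyOne (D : Dat K n) (ρ : K →+* ℂ) (lam : K) (t : Option ((j : Fin n) → Fin (D.r j)))
    (ε : ℝ) : Prop :=
  ∃ Γ : Torus (UOpen lam D) n, (∀ θ x, Γ.e θ (ucst lam D x) = ρ x) ∧
    ∀ o, |Γ.reg (symb (uent lam D o)) / ((2 * Real.pi) ^ n * Real.log ‖ρ lam‖) -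
      (if t = o then 1 else 0)| ≤ ε

/-- There are a torus over `σ` and `∏_j r_j` tori over `τ` on which the determinant of the regulators
of the `1 + ∏_j r_j` symbols, divided by
`(2 π) ^ n log |σ λ| ((2 π) ^ n log |τ λ|) ^ (∏_j r_j)`, differs from `1` by at most `ε`. -/
def DetLimit (D : Dat K n) (σ τ : K →+* ℂ) (lam : K) (ε : ℝ) : Prop :=
  ∃ Γ : Option ((j : Fin n) → Fin (D.r j)) → Torus (UOpen lam D) n,
    (∀ θ x, (Γ none).e θ (ucst lam D x) = σ x) ∧
    (∀ k θ x, (Γ (some k)).e θ (ucst lam D x) = τ x) ∧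
    |(Matrix.of fun t o : Option ((j : Fin n) → Fin (D.r j)) =>
      (Γ t).reg (symb (uent lam D o))).det /
      (((2 * Real.pi) ^ n * Real.log ‖σ lam‖) *
        ((2 * Real.pi) ^ n * Real.log ‖τ lam‖) ^ (∏ j, D.r j)) - 1| ≤ ε

/-- The conclusions for a unit `λ`, with the constants `C` and `ε`. -/
def Concl.{u, v} {K : Type u} [Field K] {n : ℕ} (D : Dat K n) (C ε : ℝ) (lam : K) : Prop :=
  (∀ (L : Type v) [Field L] (f : UOpen lam D →+* L) (o : Option ((j : Fin n) → Fin (D.r j))),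
    KQ.map (n + 1) f (symb (uent lam D o)) ∈ Unramified L (n + 1)) ∧
  (∀ σ : K →+* ℂ, C ≤ ‖σ lam‖ → OnlyOne D σ lam none ε) ∧
  (∀ τ : K →+* ℂ, ‖τ lam‖ * C ≤ 1 → ∀ k, OnlyOne D τ lam (some k) ε) ∧
  ∀ σ τ : K →+* ℂ, C ≤ ‖σ lam‖ → ‖τ lam‖ * C ≤ 1 → DetLimit D σ τ lam ε

end defs

/-- Let `K` be a number field, let `α ≠ β` be roots of unity in `K`, and for `1 ≤ j ≤ n` let
`a_{j,0}, ..., a_{j,r_j}` be different roots of unity in `K`, and `1 ≤ m_j ≤ r_j`. For every `ε > 0`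
there is a constant `C > 1` such that the following holds for all units `λ` of the ring of integers of
`K` and the hypersurface `(z_0 - α) (z_0 - β) ∏_j ∏_i (z_j - a_{j,i}) = λ z_0 ∏_j z_j^{m_j}`.

The `1 + ∏_j r_j` symbols `{z_0, ..., z_n}` and
`{(z_0 - α)/(z_0 - β), (z_1 - a_{1,k_1})/(z_1 - a_{1,r_1}), ..., (z_n - a_{n,k_n})/(z_n - a_{n,r_n})}`,
`0 ≤ k_j < r_j`, on the open part at which no `z_j` vanishes have unramified images in the Milnor
K-theory of all fields with a homomorphism from the coordinate ring of the open part. For every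
embedding `σ` with `|σ λ| ≥ C` there is a torus in the complex points over `σ` on which the regulators
divided by `(2 π) ^ n log |σ λ|` are `ε`-close to `1` for `{z_0, ..., z_n}` and to `0` for the others.
For every embedding `τ` with `|τ λ| ≤ 1 / C` and every `k` there is a torus in the complex points over
`τ` on which the regulators divided by `(2 π) ^ n log |τ λ|` are `ε`-close to `1` for the symbol with
the index `k` and to `0` for the others. If `|σ λ| ≥ C` and `|τ λ| ≤ 1 / C`, there are a torus over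
`σ` and `∏_j r_j` tori over `τ` on which the determinant of the regulators, divided by
`(2 π) ^ n log |σ λ| ((2 π) ^ n log |τ λ|) ^ (∏_j r_j)`, is `ε`-close to `1`. For each unit `e` which
is not a root of unity there are `σ`, `τ` such that `λ = e ^ m` satisfies the last condition for all
large `m`. -/
theorem result.{u, v} (n : ℕ) (K : Type u) [Field K] [NumberField K] (D : Dat K n) (hD : D.Ok)
    (ε : ℝ) (hε : 0 < ε) :
    ∃ C : ℝ, 1 < C ∧ (∀ lam : K, IsIntegral ℤ lam → IsIntegral ℤ lam⁻¹ → lam ≠ 0 →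
      Concl.{u, v} D C ε lam) ∧
    ∀ e : K, e ≠ 0 → IsIntegral ℤ e → IsIntegral ℤ e⁻¹ → (∀ k : ℕ, 0 < k → e ^ k ≠ 1) →
      ∃ (σ τ : K →+* ℂ) (M : ℕ), ∀ m ≥ M, C ≤ ‖σ (e ^ m)‖ ∧ ‖τ (e ^ m)‖ * C ≤ 1 := by
  choose M1 hM1 h1 using fun σ : K →+* ℂ => Pool.Agent.X321.UP.large_limit hD σ hε
  choose M2 hM2 h2 using fun (τ : K →+* ℂ) (k : (j : Fin n) → Fin (D.r j)) =>
    Pool.Agent.X321.UP.small_limit hD τ k hε
  choose M3 hM3 h3 using fun (σ τ : K →+* ℂ) =>
    Pool.Agent.X321.UP.exists_tori_limit hD σ τ hε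
  set Q : ℝ := (∑ σ, M1 σ) + (∑ τ, ∑ k, M2 τ k) + ∑ σ, ∑ τ, M3 σ τ with hQ
  have s1 : 0 ≤ ∑ σ, M1 σ := Finset.sum_nonneg fun σ _ => (hM1 σ).le
  have s2 : 0 ≤ ∑ τ, ∑ k, M2 τ k :=
    Finset.sum_nonneg fun τ _ => Finset.sum_nonneg fun k _ => (hM2 τ k).le
  have s3 : 0 ≤ ∑ σ, ∑ τ, M3 σ τ :=
    Finset.sum_nonneg fun σ _ => Finset.sum_nonneg fun τ _ => (hM3 σ τ).le
  have b1 : ∀ σ, M1 σ ≤ Q := fun σ => by
    have := Finset.single_le_sum (f := M1) (fun σ _ => (hM1 σ).le) (Finset.mem_univ σ)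
    linarith
  have b2 : ∀ τ k, M2 τ k ≤ Q := fun τ k => by
    have e1 := Finset.single_le_sum (f := fun k => M2 τ k) (fun k _ => (hM2 τ k).le)
      (Finset.mem_univ k)
    have e2 := Finset.single_le_sum (f := fun τ => ∑ k, M2 τ k)
      (fun τ _ => Finset.sum_nonneg fun k _ => (hM2 τ k).le) (Finset.mem_univ τ)
    have e3 : M2 τ k ≤ ∑ k, M2 τ k := e1
    have e4 : ∑ k, M2 τ k ≤ ∑ τ, ∑ k, M2 τ k := e2
    linarith
  have b3 : ∀ σ τ, M3 σ τ ≤ Q := fun σ τ => by
    have e1 := Finset.single_le_sum (f := fun τ => M3 σ τ) (fun τ _ => (hM3 σ τ).le)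
      (Finset.mem_univ τ)
    have e2 := Finset.single_le_sum (f := fun σ => ∑ τ, M3 σ τ)
      (fun σ _ => Finset.sum_nonneg fun τ _ => (hM3 σ τ).le) (Finset.mem_univ σ)
    have e3 : M3 σ τ ≤ ∑ τ, M3 σ τ := e1
    have e4 : ∑ τ, M3 σ τ ≤ ∑ σ, ∑ τ, M3 σ τ := e2
    linarith
  have hexp := Real.exp_pos Q
  refine ⟨Real.exp Q + 1, by linarith, fun lam hi hi' hl0 => ?_, fun e he0 he he' hne =>
    exists_pow he he' hne he0 _⟩
  have hC0 : 0 < Real.exp Q + 1 := by linarith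
  have l1 : ∀ σ : K →+* ℂ, Real.exp Q + 1 ≤ ‖σ lam‖ → Q ≤ Real.log ‖σ lam‖ := by
    intro σ h
    rw [Real.le_log_iff_exp_le (by linarith)]
    linarith
  have l2 : ∀ τ : K →+* ℂ, ‖τ lam‖ * (Real.exp Q + 1) ≤ 1 → Q ≤ -Real.log ‖τ lam‖ := by
    intro τ h
    have h0 : 0 < ‖τ lam‖ := norm_pos_iff.2 ((map_ne_zero τ).2 hl0)
    rw [← Real.log_inv, Real.le_log_iff_exp_le (inv_pos.2 h0)]
    have h2 : Real.exp Q + 1 ≤ ‖τ lam‖⁻¹ := by
      rw [← one_div, le_div_iff₀ h0]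
      linarith
    linarith
  refine ⟨fun L _ f o => symb_mem_unramified f hD hi hi' hl0 o,
    fun σ h => h1 σ lam ((b1 σ).trans (l1 σ h)),
    fun τ h k => h2 τ k lam ((b2 τ k).trans (l2 τ h)), fun σ τ h h' => ?_⟩
  obtain ⟨Γ, g1, g2, -, -, g5⟩ := h3 σ τ lam ((b3 σ τ).trans (l1 σ h)) ((b3 σ τ).trans (l2 τ h'))
  exact ⟨Γ, g1, g2, g5⟩

end Pool.Agent.Results.MP_51fc19_nt.UnitPencilsLimit
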